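import Pool.Agent.H15.TG.Targets

/-!
Board tga_modules (MP_51eb24_ag), rows PSE FIK SON PNL PFC.
-/

set_option autoImplicit false

namespace Pool.Agent.H45.TG

open MvPolynomial Pool.Agent.H2.ST Pool.Agent.H15.TG

theorem pf_PSE (hPAR : T_PAR) (hCOM : T_COM) (hKRL : T_KRL) : T_PSE := by
  intro k _ _ m Γ _ _ W y w S hW hA hπ
  classical
  have hπ' : ∀ i, ∃ π : Γ →+ ℤ, S i → (0 < π (w i) ∧ ∀ j, j ≠ i → π (w j) = 0) := by
    intro i
    by_cases h : S i
    · obtain ⟨π, hp⟩ := hπ i h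
      exact ⟨π, fun _ => hp⟩
    · exact ⟨0, fun h' => absurd h' h⟩
  choose π hp using hπ'
  have hq : ∀ i, ∃ (u v : Pol k m) (c : k), S i → Par W (w i) (π i) u v c := by
    intro i
    by_cases h : S i
    · obtain ⟨u, v, c, huv⟩ := hPAR k m Γ W y w i (π i) hW hA (hp i h).1 (hp i h).2
      exact ⟨u, v, c, fun _ => huv⟩
    · exact ⟨0, 0, 0, fun h' => absurd h' h⟩
  choose u v c hpar using hq
  have hcom : ∀ i j, S i → S j → i ≠ j →
      br (u i) (u j) = 0 ∧ br (u i) (v j) = 0 ∧ br (v i) (u j) = 0 ∧ br (v i) (v j) = 0 := by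
    intro i j hi hj hij
    exact hCOM k m Γ W (w i) (w j) (π i) (π j) (u i) (v i) (u j) (v j) (c i) (c j) hW (hpar i hi)
      (hpar j hj) ((hp i hi).2 j (Ne.symm hij)) ((hp j hj).2 i hij)
  refine ⟨π, u, v, c, { hW with par := hpar, pz := ?_, uu := ?_, vv := ?_, uv := ?_, wt := ?_ }⟩
  · intro i hi j hj
    exact (hp i hi).2 j hj
  · intro i j hi hj
    by_cases hij : i = j
    · rw [hij]
      exact br_self _
    · exact (hcom i j hi hj hij).1
  · intro i j hi hj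
    by_cases hij : i = j
    · rw [hij]
      exact br_self _
    · exact (hcom i j hi hj hij).2.2.2
  · intro i j hi hj hij
    exact (hcom i j hi hj hij).2.1
  · intro χ f hf hf0
    by_contra hcon
    apply hf0
    refine (hKRL k m Γ W y w hW hA χ f hf).1 fun α hα => ?_
    exact hcon ⟨fun i => (α (Sum.inl i) : ℤ) - (α (Sum.inr i) : ℤ), hα.symm⟩

theorem lnd_br {k : Type} [Field k] {m : ℕ} {f : Pol k m}
    (h : ∀ g : Pol k m, ∃ n : ℕ, (br f)^[n] g = 0) : LND (br f) where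
  add := br_add f
  mul := br_mul f
  nil := h

theorem pf_FIK (hLDV : T_LDV) : T_FIK := by
  intro k _ _ m Γ _ W w S ϖ u v c h f hf hnil
  have hL := lnd_br hnil
  rintro p ⟨i, hi, hp | hp⟩
  · rw [hp]
    have h1 : br f (u i) ∈ W (w i) := by
      have h2 := h.pbr 0 (w i) f (u i) hf (h.par i hi).hu
      rwa [zero_add] at h2
    have h3 := (h.par i hi).pos 1 (w i) (by push_cast; rw [one_mul]) _ h1
    rw [pow_one] at h3
    exact hLDV (Pol k m) (br f) hL (u i) h3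
  · rw [hp]
    have h1 : br f (v i) ∈ W (-w i) := by
      have h2 := h.pbr 0 (-w i) f (v i) hf (h.par i hi).hv
      rwa [zero_add] at h2
    have h3 := (h.par i hi).neg 1 (-w i) (by push_cast; rw [one_mul, map_neg, neg_neg]) _ h1
    rw [pow_one] at h3
    exact hLDV (Pol k m) (br f) hL (v i) h3

theorem pf_SON (hSPE : T_SPE) (hCSP : T_CSP) (hTWA : T_TWA) (hTWB : T_TWB) (hDVE : T_DVE)
    (hDVS : T_DVS) : T_SON := by
  intro k _ _ _ m d W K H f h ψ π hψ hp hc hw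
  obtain ⟨x, hx⟩ := hSPE k m d W K H f h ψ π hψ hp hc hw
  obtain ⟨y, hy⟩ := hDVE k m d W K H f h.toFd x hx.2.1 hx.2.2.1
  by_cases hy0 : ∃ j, y j ≠ 0
  · exfalso
    obtain ⟨σ, hσ, hσc, hσw, rfl⟩ := hTWA k m d W K H f h ψ π x y hψ hp hc hw hx hy hy0
    obtain ⟨q, l, htw⟩ := hTWB k m d W K H f h ψ π σ y hψ hp hc hw hσ hσc hσw hx hy hy0
    obtain ⟨χ, χ', g, hg, g', hg', hgw, hgw', hl, hl', hcop⟩ := h.lo l htw.la
      ⟨ψ, ⟨π, (mem_Cf.1 hc).1, hw, hp.ne_zero⟩, by rw [htw.l1]; norm_num⟩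
    exact hcop σ (hDVS k m d W K H f π σ q y ψ l htw χ g hg hgw hl)
      (hDVS k m d W K H f π σ q y ψ l htw χ' g' hg' hgw' hl')
      (h.van (-ψ) (neg_ne_zero.2 hψ) σ hσw)
  · push Not at hy0
    have hy1 : y = fun _ => 0 := funext hy0
    rw [hy1] at hy
    exact hCSP k m d W K H f h ψ π x hψ hp hc hw hx hy

section mn

variable {k : Type} [Field k] {m d : ℕ}
  {W : (Fin d → ℤ) → Submodule k (Pol k m)} {K : Subalgebra k (Pol k m)}
  {H : Fin d → Pol k m} {f : Pol k m} {π : Fin (d + 1) → Pol k m}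
  {ψ : Fin (d + 1) → Fin d → ℤ} {a : Fin (d + 1) → ℕ} {c0 : k}

theorem pi_mem (h : Mn W K H f π ψ a c0) (i : Fin (d + 1)) : π i ∈ K ∧ br f (π i) = 0 :=
  mem_Cf.1 (h.hp i)

theorem Kp_le (h : Mn W K H f π ψ a c0) : Kp π ≤ K := by
  refine Algebra.adjoin_le ?_
  rintro _ ⟨i, rfl⟩
  exact (pi_mem h i).1

/-- an element whose brackets with all `π i` vanish commutes with `k[π]` -/
theorem Kp_cen {z : Pol k m} (hz : ∀ i, br (π i) z = 0) {p : Pol k m} (hp : p ∈ Kp π) :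
    br p z = 0 := by
  have h1 : Kp π ≤ Cen {z} := by
    refine Algebra.adjoin_le ?_
    rintro _ ⟨i, rfl⟩ x hx
    rw [Set.mem_singleton_iff.1 hx]
    exact hz i
  exact h1 hp z rfl

theorem f_mem_Kp (h : Mn W K H f π ψ a c0) : f ∈ Kp π := by
  rw [h.fe]
  refine Subalgebra.mul_mem _ ?_ ?_
  · have := (Kp π).algebraMap_mem c0
    rwa [MvPolynomial.algebraMap_eq] at this
  · exact Subalgebra.prod_mem _ fun i _ => Subalgebra.pow_mem _
      (Algebra.subset_adjoin (Set.mem_range_self i)) _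

theorem br_pi_H (h : Mn W K H f π ψ a c0) (i : Fin (d + 1)) (t : Fin d) :
    br (π i) (H t) = -(((ψ i t : ℤ) : k) • π i) := by
  rw [br_anti, h.eu t (ψ i) (π i) (pi_mem h i).1 (h.wp i)]

end mn

theorem pf_PNL (hEXT : T_EXT) (hPPC : T_PPC) (hCPH : T_CPH) (hNIL : T_NIL) : T_PNL := by
  intro k _ _ _ m d W K H f π ψ a c0 h i
  have hPP := hPPC k m d W K H f π ψ a c0 h
  refine hEXT k m K f (π i) (fun x hx => h.bk f h.fK x hx)
    (fun x hx => h.bk (π i) (pi_mem h i).1 x hx) (pi_mem h i).2 h.fl ?_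
  intro x hx
  obtain ⟨Q, hQ⟩ := (hCPH k m d W K H f π ψ a c0 h).2 x hx
  have hfun : (⇑(ad (π i)) : Pol k m → Pol k m) = br (π i) := funext (ad_apply _)
  have key := hNIL k (Pol k m) (ad (π i)) (Set.range (Sum.elim π H)) ?_ x ?_
  · rw [hfun] at key
    exact key
  · rintro _ ⟨s | t, rfl⟩
    · refine ⟨1, ?_⟩
      rw [hfun]
      exact hPP i s
    · refine ⟨2, ?_⟩
      rw [hfun]
      change br (π i) (br (π i) (H t)) = 0
      rw [br_pi_H h, br_neg, br_smul, br_self, smul_zero, neg_zero]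
  · rw [← hQ]
    rw [Algebra.adjoin_range_eq_range_aeval]
    exact ⟨Q, rfl⟩

theorem pf_PFC (hPNL : T_PNL) (hPCN : T_PCN) (hPPC : T_PPC) (hLFC : T_LFC) : T_PFC := by
  intro k _ _ _ m d W K H f π ψ a c0 h a' b' hne hab
  have hPP := hPPC k m d W K H f π ψ a c0 h
  have hK := Kp_le h hab
  obtain ⟨ha', hb'⟩ := h.fc a' b' hne hK
  have key : ∀ i, br (π i) a' = 0 ∧ br (π i) b' = 0 := by
    intro i
    have h0 : br (π i) (a' * b') = 0 := by
      rw [br_anti, Kp_cen (fun j => hPP j i) hab, neg_zero]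
    let D : K → K := fun x => ⟨br (π i) x.1, h.bk (π i) (pi_mem h i).1 x.1 x.2⟩
    have hDn : ∀ (n : ℕ) (x : K), ((D^[n] x : K) : Pol k m) = (br (π i))^[n] x.1 := by
      intro n
      induction n with
      | zero => intro x; rfl
      | succ n ih => intro x; rw [Function.iterate_succ_apply, Function.iterate_succ_apply, ih]
    have hD : LND D :=
      { add := fun x y => Subtype.ext (br_add (π i) x.1 y.1)
        mul := fun x y => Subtype.ext (br_mul (π i) x.1 y.1)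
        nil := fun x => by
          obtain ⟨n, hn⟩ := hPNL k m d W K H f π ψ a c0 h i x.1 x.2
          exact ⟨n, Subtype.ext ((hDn n x).trans hn)⟩ }
    have h1 := hLFC K D hD ⟨a', ha'⟩ ⟨b', hb'⟩ (fun h2 => hne (congrArg Subtype.val h2))
      (Subtype.ext h0)
    exact ⟨congrArg Subtype.val h1.1, congrArg Subtype.val h1.2⟩
  exact ⟨hPCN k m d W K H f π ψ a c0 h a' ha' fun i => (key i).1,
    hPCN k m d W K H f π ψ a c0 h b' hb' fun i => (key i).2⟩

end Pool.Agent.H45.TG
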