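import Pool.Agent.H45.TG.A

/-!
Board tga_modules (MP_51eb24_ag), rows PCN HKP.
-/

set_option autoImplicit false

namespace Pool.Agent.H45.TG

open MvPolynomial Pool.Agent.H2.ST Pool.Agent.H15.TG

/-- chain rule for derivations -/
theorem der_aeval {k A ι : Type} [Field k] [CommRing A] [Algebra k A] [Fintype ι]
    [DecidableEq ι] (D : Derivation k A A) (g : ι → A) (Q : MvPolynomial ι k) :
    D (aeval g Q) = ∑ v, aeval g (pderiv v Q) * D (g v) := by
  induction Q using MvPolynomial.induction_on with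
  | C a => simp
  | add p q hp hq =>
    rw [map_add, map_add, hp, hq, ← Finset.sum_add_distrib]
    refine Finset.sum_congr rfl fun v _ => ?_
    rw [map_add, map_add, add_mul]
  | mul_X p i hp =>
    rw [map_mul, aeval_X, Derivation.leibniz, hp, smul_eq_mul, smul_eq_mul, Finset.mul_sum]
    have h1 : ∀ v, aeval g (pderiv v (p * X i)) * D (g v) =
        (if v = i then aeval g p * D (g i) else 0) + g i * (aeval g (pderiv v p) * D (g v)) := by
      intro v
      rw [Derivation.leibniz, pderiv_X, map_add, smul_eq_mul, smul_eq_mul, map_mul, map_mul,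
        aeval_X]
      by_cases hv : v = i
      · subst hv
        rw [Pi.single_eq_same, if_pos rfl, map_one]
        ring
      · rw [Pi.single_eq_of_ne (Ne.symm hv), if_neg hv, map_zero]
        ring
    rw [Finset.sum_congr rfl fun v _ => h1 v, Finset.sum_add_distrib, Finset.sum_ite_eq']
    simp

theorem det_ne {d : ℕ} {ψ : Fin (d + 1) → Fin d → ℤ} {a : Fin (d + 1) → ℕ}
    (ap : ∀ i, 0 < a i)
    (rl : ∀ e : Fin (d + 1) → ℤ, ∑ i, e i • ψ i = 0 → ∃ N : ℤ, ∀ i, e i = N * (a i : ℤ)) :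
    (Matrix.of fun i => (Fin.snoc (α := fun _ => ℤ) (ψ i) (a i : ℤ) : Fin (d + 1) → ℤ)).det
      ≠ 0 := by
  intro hdet
  obtain ⟨e, he, hev⟩ := Matrix.exists_vecMul_eq_zero_iff.2 hdet
  have h1 : ∀ t : Fin d, ∑ i, e i * ψ i t = 0 := by
    intro t
    have h := congrFun hev t.castSucc
    simpa [Matrix.vecMul, dotProduct] using h
  have h2 : ∑ i, e i * (a i : ℤ) = 0 := by
    have h := congrFun hev (Fin.last d)
    simpa [Matrix.vecMul, dotProduct] using h
  obtain ⟨N, hN⟩ := rl e (by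
    funext t
    rw [Finset.sum_apply]
    simpa using h1 t)
  have h3 : N * ∑ i, (a i : ℤ) ^ 2 = 0 := by
    rw [Finset.mul_sum, ← h2]
    refine Finset.sum_congr rfl fun i _ => ?_
    rw [hN]
    ring
  have h4 : 0 < ∑ i, (a i : ℤ) ^ 2 := by
    refine Finset.sum_pos (fun i _ => ?_) ⟨0, Finset.mem_univ _⟩
    have h5 : (0 : ℤ) < a i := by exact_mod_cast ap i
    positivity
  have hN0 : N = 0 := by
    rcases mul_eq_zero.1 h3 with h | h
    · exact h
    · exact absurd h h4.ne'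
  apply he
  funext i
  rw [hN, hN0, zero_mul]
  rfl

/-- the weights span -/
theorem span_ne {R : Type} [CommRing R] [IsDomain R] [CharZero R] {d : ℕ}
    {ψ : Fin (d + 1) → Fin d → ℤ} {a : Fin (d + 1) → ℕ} (ap : ∀ i, 0 < a i)
    (rl : ∀ e : Fin (d + 1) → ℤ, ∑ i, e i • ψ i = 0 → ∃ N : ℤ, ∀ i, e i = N * (a i : ℤ))
    (x : Fin d → R) (hx : ∀ i, ∑ t, ((ψ i t : ℤ) : R) * x t = 0) : x = 0 := by
  have hdet : ((Int.castRingHom R).mapMatrix (Matrix.of fun i =>
      (Fin.snoc (α := fun _ => ℤ) (ψ i) (a i : ℤ) : Fin (d + 1) → ℤ))).det ≠ 0 := by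
    rw [← RingHom.map_det]
    intro h
    have h1 : (((Matrix.of fun i =>
      (Fin.snoc (α := fun _ => ℤ) (ψ i) (a i : ℤ) : Fin (d + 1) → ℤ)).det : ℤ) : R) = 0 := h
    exact det_ne ap rl (by exact_mod_cast h1)
  have hv : ((Int.castRingHom R).mapMatrix (Matrix.of fun i =>
      (Fin.snoc (α := fun _ => ℤ) (ψ i) (a i : ℤ) : Fin (d + 1) → ℤ))).mulVec
      (Fin.snoc (α := fun _ => R) x 0) = 0 := by
    funext i
    simp only [Matrix.mulVec, dotProduct, RingHom.mapMatrix_apply, Matrix.map_apply,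
      Matrix.of_apply, Fin.sum_univ_castSucc, Fin.snoc_castSucc, Fin.snoc_last, mul_zero,
      add_zero, Int.coe_castRingHom]
    exact hx i
  have h2 := Matrix.eq_zero_of_mulVec_eq_zero hdet hv
  funext t
  have h3 := congrFun h2 t.castSucc
  rw [Fin.snoc_castSucc] at h3
  exact h3

theorem pf_PCN (hCPH : T_CPH) (hPPC : T_PPC) : T_PCN := by
  intro k _ _ _ m d W K H f π ψ a c0 h z hz hbr
  classical
  have hPP := hPPC k m d W K H f π ψ a c0 h
  have hfz : br f z = 0 := Kp_cen hbr (f_mem_Kp h)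
  obtain ⟨hind, hgen⟩ := hCPH k m d W K H f π ψ a c0 h
  obtain ⟨Q, hQ⟩ := hgen z (mem_Cf.2 ⟨hz, hfz⟩)
  have hrel : ∀ i, ∑ t, ((ψ i t : ℤ) : MvPolynomial (Fin (d + 1) ⊕ Fin d) k) *
      pderiv (Sum.inr t) Q = 0 := by
    intro i
    have h1 : ad (π i) z = 0 := (ad_apply _ _).trans (hbr i)
    rw [← hQ, der_aeval, Fintype.sum_sum_type] at h1
    simp only [Sum.elim_inl, Sum.elim_inr, ad_apply, hPP, mul_zero, Finset.sum_const_zero,
      zero_add, br_pi_H h] at h1
    have h2 : π i * aeval (Sum.elim π H) (∑ t,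
        ((ψ i t : ℤ) : MvPolynomial (Fin (d + 1) ⊕ Fin d) k) * pderiv (Sum.inr t) Q) = 0 := by
      rw [map_sum, Finset.mul_sum, ← neg_eq_zero, ← Finset.sum_neg_distrib, ← h1]
      refine Finset.sum_congr rfl fun t _ => ?_
      rw [map_mul, map_intCast, Algebra.smul_def, map_intCast]
      ring
    rcases mul_eq_zero.1 h2 with h3 | h3
    · exact absurd h3 (h.pp i).ne_zero
    · exact algebraicIndependent_iff.1 hind _ h3
  have hx := span_ne h.ap h.rl (fun t => pderiv (Sum.inr t) Q) hrel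
  have hsup : ∀ n ∈ Q.support, ∀ t, n (Sum.inr t) = 0 := by
    intro n hn t
    by_contra hne
    have h1 := congrArg (coeff (n - Finsupp.single (Sum.inr t) 1)) (congrFun hx t)
    rw [coeff_pderiv] at h1
    have h2 : n - Finsupp.single (Sum.inr t) 1 + Finsupp.single (Sum.inr t) 1 = n := by
      apply tsub_add_cancel_of_le
      rw [Finsupp.single_le_iff]
      omega
    rw [h2] at h1
    have h1' : coeff n Q * (((n - Finsupp.single (Sum.inr t) 1 :
      (Fin (d + 1) ⊕ Fin d) →₀ ℕ) (Sum.inr t) : k) + 1) = 0 := h1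
    rcases mul_eq_zero.1 h1' with h3 | h3
    · exact (mem_support_iff.1 hn) h3
    · have : (((((n - Finsupp.single (Sum.inr t) 1 : (Fin (d + 1) ⊕ Fin d) →₀ ℕ) (Sum.inr t))
          + 1 : ℕ)) : k) = 0 := by
        push_cast; exact h3
      exact absurd (Nat.cast_eq_zero.1 this) (by omega)
  rw [← hQ, aeval_def, eval₂_eq']
  refine Subalgebra.sum_mem _ fun n hn => ?_
  refine Subalgebra.mul_mem _ (Subalgebra.algebraMap_mem _ _) ?_
  rw [Fintype.prod_sum_type]
  refine Subalgebra.mul_mem _ ?_ ?_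
  · exact Subalgebra.prod_mem _ fun i _ => Subalgebra.pow_mem _
      (Algebra.subset_adjoin (Set.mem_range_self i)) _
  · rw [Finset.prod_eq_one]
    · exact Subalgebra.one_mem _
    · intro t _
      rw [hsup n hn t, pow_zero]

theorem pf_HKP : T_HKP := by
  intro k _ _ _ m d W K H f π ψ a c0 h θ p hp hpw hp0
  classical
  have hp' : p ∈ Algebra.adjoin k (Set.range π) := hp
  rw [Algebra.adjoin_range_eq_range_aeval] at hp'
  obtain ⟨P, hP⟩ := hp'
  have hP' : aeval π P = p := hP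
  let mon : (Fin (d + 1) →₀ ℕ) → Pol k m := fun n => ∏ i, π i ^ n i
  let wt : (Fin (d + 1) →₀ ℕ) → (Fin d → ℤ) := fun n => ∑ i, n i • ψ i
  have hmon : ∀ n, mon n ∈ W (wt n) := fun n =>
    prod_mem_gr h.toGr _ _ _ fun i _ => pow_mem_gr h.toGr (h.wp i) _
  have hsum : p = ∑ n ∈ P.support, coeff n P • mon n := by
    rw [← hP', aeval_def, eval₂_eq']
    refine Finset.sum_congr rfl fun n _ => ?_
    rw [Algebra.smul_def]
  let s := P.support.filter (fun n => wt n = θ)
  have hps : p = ∑ n ∈ s, coeff n P • mon n := by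
    have h1 : cmp h.toGr p θ = p := by rw [cmp_of_mem _ hpw, Finsupp.single_eq_same]
    have h2 : cmp h.toGr p θ = ∑ n ∈ s, coeff n P • mon n := by
      rw [hsum, map_sum, Finsupp.finsetSum_apply, Finset.sum_filter]
      refine Finset.sum_congr rfl fun n _ => ?_
      rw [map_smul, Finsupp.smul_apply, cmp_of_mem _ (hmon n), Finsupp.single_apply]
      split_ifs
      · rfl
      · rw [smul_zero]
    rw [← h2, h1]
  have hsne : s.Nonempty := by
    by_contra hcon
    rw [Finset.not_nonempty_iff_eq_empty] at hcon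
    rw [hcon, Finset.sum_empty] at hps
    exact hp0 hps
  obtain ⟨n0, hn0, hmin⟩ := Finset.exists_min_image s (fun n => n 0) hsne
  have hN : ∀ n ∈ s, ∃ N : ℕ, ∀ i, n i = n0 i + N * a i := by
    intro n hn
    have hw1 : wt n = θ := (Finset.mem_filter.1 hn).2
    have hw0 : wt n0 = θ := (Finset.mem_filter.1 hn0).2
    obtain ⟨N, hN⟩ := h.rl (fun i => (n i : ℤ) - n0 i) (by
      have h5 : ∑ i, ((n i : ℤ) - n0 i) • ψ i = wt n - wt n0 := by
        simp only [wt, sub_smul, Finset.sum_sub_distrib, natCast_zsmul]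
      rw [h5, hw1, hw0, sub_self])
    have h0 : (0 : ℤ) ≤ N := by
      have h2 : (n 0 : ℤ) - n0 0 = N * (a 0 : ℤ) := hN 0
      have h3 : n0 0 ≤ n 0 := hmin n hn
      have h4 := h.ap 0
      by_contra hcon
      push Not at hcon
      have h6 : N * (a 0 : ℤ) < 0 := mul_neg_of_neg_of_pos hcon (by exact_mod_cast h4)
      omega
    obtain ⟨N', rfl⟩ := Int.eq_ofNat_of_zero_le h0
    refine ⟨N', fun i => ?_⟩
    have h2 : (n i : ℤ) - n0 i = (N' : ℤ) * (a i : ℤ) := hN i
    zify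
    linarith
  choose! N hN using hN
  have hf : ∏ i, π i ^ a i = C c0⁻¹ * f := by
    have h1 := h.fe
    rw [h1, ← mul_assoc, ← C_mul, inv_mul_cancel₀ h.c1, C_1, one_mul]
  have hmonN : ∀ n ∈ s, mon n = mon n0 * (C c0⁻¹ * f) ^ N n := by
    intro n hn
    rw [← hf]
    simp only [mon]
    rw [← Finset.prod_pow, ← Finset.prod_mul_distrib]
    refine Finset.prod_congr rfl fun i _ => ?_
    rw [hN n hn i, pow_add, mul_comm (N n), pow_mul]
  let Q1 : Polynomial k := ∑ n ∈ s, Polynomial.C (coeff n P * c0⁻¹ ^ N n) * Polynomial.X ^ N n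
  have hQ1 : p = mon n0 * Polynomial.aeval f Q1 := by
    refine hps.trans ?_
    simp only [Q1, map_sum, Finset.mul_sum]
    refine Finset.sum_congr rfl fun n hn => ?_
    rw [hmonN n hn, map_mul, Polynomial.aeval_C, map_pow, Polynomial.aeval_X, mul_pow,
      MvPolynomial.algebraMap_eq, smul_eq_C_mul, C_mul, C_pow]
    ring
  have hQ0 : Q1 ≠ 0 := by
    intro h0
    rw [h0, map_zero, mul_zero] at hQ1
    exact hp0 hQ1
  by_cases hroot : ∃ r ∈ Q1.roots, r ≠ 0
  · left
    obtain ⟨r, hr, hr0⟩ := hroot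
    obtain ⟨Q2, hQ2⟩ := Polynomial.dvd_iff_isRoot.2 (Polynomial.isRoot_of_mem_roots hr)
    refine ⟨r, hr0, ?_⟩
    rw [hQ1, hQ2, map_mul, map_sub, Polynomial.aeval_X, Polynomial.aeval_C,
      MvPolynomial.algebraMap_eq]
    exact ⟨mon n0 * Polynomial.aeval f Q2, by ring⟩
  · right
    push Not at hroot
    obtain ⟨r, hr⟩ : ∃ r, r = Multiset.card Q1.roots := ⟨_, rfl⟩
    have h1 : Q1.roots = Multiset.replicate r 0 := Multiset.eq_replicate.2 ⟨hr.symm, hroot⟩
    have h2 := (IsAlgClosed.splits Q1).eq_prod_roots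
    rw [h1, Multiset.map_replicate, Multiset.prod_replicate, map_zero, sub_zero] at h2
    refine ⟨Q1.leadingCoeff * c0 ^ r, fun i => n0 i + r * a i,
      mul_ne_zero (Polynomial.leadingCoeff_ne_zero.2 hQ0) (pow_ne_zero _ h.c1), ?_⟩
    have h3 : ∏ i, π i ^ (n0 i + r * a i) = mon n0 * (∏ i, π i ^ a i) ^ r := by
      simp only [mon]
      rw [← Finset.prod_pow, ← Finset.prod_mul_distrib]
      refine Finset.prod_congr rfl fun i _ => ?_
      rw [pow_add, mul_comm r, pow_mul]
    have h4 : Polynomial.aeval f Q1 = C Q1.leadingCoeff * (C c0 * ∏ i, π i ^ a i) ^ r := by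
      rw [← h.fe]
      conv_lhs => rw [h2]
      rw [map_mul, Polynomial.aeval_C, map_pow, Polynomial.aeval_X, MvPolynomial.algebraMap_eq]
    rw [h3, hQ1, h4, mul_pow, C_mul, C_pow]
    ring

end Pool.Agent.H45.TG
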